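import Mathlib
import Pool.Agent.H.MP_db33a0_lc.D

namespace Pool.Agent.Results.MP_6be952_lc.Yes

open Pool.Agent.H.MP_db33a0_lc

theorem result :
    ¬ {C | ∃ L : Set Fm, SubClosed L ∧ C = ConsM L ∧ DIP C}.Countable ∧
      Cardinal.continuum ≤ Cardinal.mk {C | ∃ L : Set Fm, SubClosed L ∧ C = ConsM L ∧ DIP C} :=
  fin _ fun α => ⟨_, Lg_sub _, (lkM α).symm, dipK α⟩

end Pool.Agent.Results.MP_6be952_lc.Yes
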